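import Pool.Agent.Helper64K9.PS.Fixc
import Pool.Agent.Helper64K9.PS.Balr
import Pool.Agent.Helper83K9.CF.Main

/-!
From the dual statement with the multiplier `c` to the set `A t`.
-/

set_option autoImplicit false

namespace Pool.Agent.Helper74K9.PS

open Finset Pool.Agent.Helper83K9.CF

/-- `(1 - 1/(2c), ∞) ⊆ A_t` from the dual statement with the multiplier `c ≥ t - 1` -/
theorem subC (t : ℕ) (ht : 3 ≤ t) (c : ℝ) (hc : (t : ℝ) - 1 ≤ c) (hD : DualC t c) :
    Set.Ioi (1 - 1 / (2 * c)) ⊆ A t := by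
  have h1 : FixC.T_FRAC t c := FixC.frac t c hD farkas
  have h2 : FixC.T_DIST t c := FixC.dist t c hc h1
  have h3 : FixC.T_ARC1 t c := FixC.arc1 t c hc pot h2 balr
  have h4 : FixC.T_ALM t c := FixC.alm t c h3 part rate_
  have h5 : S_ABS := abs_ (fam (fam1 comp))
  have h6 : FixC.T_UP t c := FixC.up t c hc h4 h5
  exact fun α h => FixC.red t c hc h6 α ht h

/-- the lower bound -/
theorem sub_low (t : ℕ) (ht : 3 ≤ t) : A t ⊆ Set.Ioi (1 - 1 / (2 * ((t : ℝ) - 1))) := by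
  intro α h
  rw [Set.mem_Ioi]
  by_contra hcon
  exact low t ht (A_up h (not_lt.1 hcon))

/-- the final statement from the three leaves -/
theorem final (h1 : S_LPW) (h2 : S_MIN) (h3 : S_CERT) :
    (∀ t : ℕ, t = 3 ∨ t = 4 → A t = Set.Ioi (1 - 1 / (2 * ((t : ℝ) - 1)))) ∧
    ∀ t : ℕ, 5 ≤ t → Set.Ioi (1 - 1 / (2 * ((t : ℝ) - 2 / 3))) ⊆ A t ∧
      A t ⊆ Set.Ioi (1 - 1 / (2 * ((t : ℝ) - 1))) := by
  constructor
  · intro t ht
    have h3t : 3 ≤ t := by omega
    exact Set.Subset.antisymm (sub_low t h3t)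
      (subC t h3t _ le_rfl (dualC h1 h2 h3 t (by omega) _ (Or.inl ⟨by omega, le_rfl⟩)))
  · intro t ht
    have h3t : 3 ≤ t := by omega
    refine ⟨subC t h3t _ (by linarith) (dualC h1 h2 h3 t (by omega) _ (Or.inr ?_)), sub_low t h3t⟩
    linarith

end Pool.Agent.Helper74K9.PS
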